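import Pool.Agent.Helper65.LG.Defs

/-! LG packages L2a, L2b (helper65's project on MP_39d40e_nt): one step of Leigh's chain. -/

set_option autoImplicit false

open Finset

namespace Pool.Agent.Helper63.LG

open Pool.Agent.Helper65.LG

theorem cls_mod {G : GMap} {B : ℕ × ℕ} {x : ℤ} (hx : x ∈ cls G B) :
    x ≡ (B.1 : ℤ) [ZMOD (G.d : ℤ)] := by
  have h : x ≡ (B.1 : ℤ) [ZMOD ((G.d * B.2 : ℕ) : ℤ)] := hx
  rw [Nat.cast_mul] at h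
  exact h.of_mul_right _

theorem mem_self (G : GMap) (B : ℕ × ℕ) : (B.1 : ℤ) ∈ cls G B := Int.ModEq.refl _

theorem res_eq {G : GMap} {B : ℕ × ℕ} {x : ℤ} (hx : x ∈ cls G B) : res G x = B.1 % G.d := by
  have h : x % (G.d : ℤ) = (B.1 : ℤ) % (G.d : ℤ) := cls_mod hx
  unfold res
  rw [h, ← Int.natCast_mod, Int.toNat_natCast]

theorem dpos (G : GMap) : 0 < G.d := by have := G.hd; omega

theorem T_eq {G : GMap} {B : ℕ × ℕ} {x : ℤ} (hx : x ∈ cls G B) :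
    (G.d : ℤ) * T G x = G.m (B.1 % G.d) * x - G.r (B.1 % G.d) := by
  have hid : B.1 % G.d < G.d := Nat.mod_lt _ (dpos G)
  have h1 : (G.d : ℤ) ∣ x - ((B.1 % G.d : ℕ) : ℤ) := by
    have h2 : x ≡ ((B.1 % G.d : ℕ) : ℤ) [ZMOD (G.d : ℤ)] := by
      refine (cls_mod hx).trans ?_
      rw [Int.natCast_mod]
      exact (Int.mod_modEq _ _).symm
    exact (Int.modEq_iff_dvd.1 h2.symm)
  have h3 := G.hr _ hid
  have h4 : (G.d : ℤ) ∣ G.m (B.1 % G.d) * x - G.r (B.1 % G.d) := by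
    have h5 : G.m (B.1 % G.d) * x - G.r (B.1 % G.d) =
        G.m (B.1 % G.d) * (x - ((B.1 % G.d : ℕ) : ℤ)) +
          (((B.1 % G.d : ℕ) : ℤ) * G.m (B.1 % G.d) - G.r (B.1 % G.d)) := by ring
    rw [h5]
    exact dvd_add (Dvd.dvd.mul_left h1 _) h3
  unfold T
  rw [res_eq hx]
  exact Int.mul_ediv_cancel' h4

theorem dd_pos (G : GMap) (B : ℕ × ℕ) : 0 < dd G (B.1 % G.d) :=
  Nat.gcd_pos_of_pos_left _ (Int.natAbs_pos.2 (G.hm _ (Nat.mod_lt _ (dpos G))))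

theorem dd_dvd (G : GMap) (i : ℕ) : (dd G i : ℤ) ∣ G.m i :=
  Int.natCast_dvd.2 (Nat.gcd_dvd_left _ _)

theorem gg_pos (G : GMap) (B : ℕ × ℕ) : 0 < gg G B := Nat.gcd_pos_of_pos_right _ (dpos G)

theorem gg_kk (G : GMap) (B : ℕ × ℕ) : gg G B * kk G B = B.2 * dd G (B.1 % G.d) :=
  Nat.mul_div_cancel' (Nat.gcd_dvd_left _ _)

theorem kk_pos (G : GMap) {B : ℕ × ℕ} (hk : 1 ≤ B.2) : 1 ≤ kk G B := by
  have h := gg_kk G B
  have h2 := dd_pos G B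
  rcases Nat.eq_zero_or_pos (kk G B) with h3 | h3
  · rw [h3, mul_zero] at h
    have := Nat.mul_pos hk h2
    omega
  · exact h3

theorem gg_dvd (G : GMap) (B : ℕ × ℕ) : gg G B ∣ G.d := Nat.gcd_dvd_right _ _

/-- `T x ≡ T j (mod k d_i)` on the class -/
theorem T_modEq {G : GMap} {B : ℕ × ℕ} {x : ℤ} (hx : x ∈ cls G B) :
    T G (B.1 : ℤ) ≡ T G x [ZMOD ((B.2 * dd G (B.1 % G.d) : ℕ) : ℤ)] := by
  have h1 := T_eq hx
  have h2 := T_eq (mem_self G B)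
  have h3 : x ≡ (B.1 : ℤ) [ZMOD ((G.d * B.2 : ℕ) : ℤ)] := hx
  obtain ⟨q, hq⟩ := Int.modEq_iff_dvd.1 h3.symm
  obtain ⟨b, hb⟩ := dd_dvd G (B.1 % G.d)
  refine Int.modEq_iff_dvd.2 ⟨b * q, ?_⟩
  have hd : (G.d : ℤ) ≠ 0 := by exact_mod_cast (dpos G).ne'
  apply mul_left_cancel₀ hd
  rw [mul_sub, h1, h2]
  push_cast at hq ⊢
  have h4 : G.m (B.1 % G.d) * x - G.r (B.1 % G.d) -
      (G.m (B.1 % G.d) * (B.1 : ℤ) - G.r (B.1 % G.d)) = G.m (B.1 % G.d) * (x - B.1) := by ring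
  rw [h4, hq]
  nth_rewrite 1 [hb]
  ring

theorem nxt_fst (G : GMap) {B : ℕ × ℕ} (hk : 1 ≤ B.2) (x : ℤ) :
    (((nxt G B x).1 : ℕ) : ℤ) = T G x % ((G.d * kk G B : ℕ) : ℤ) := by
  show (((T G x % ((G.d * kk G B : ℕ) : ℤ)).toNat : ℕ) : ℤ) = _
  refine Int.toNat_of_nonneg (Int.emod_nonneg _ ?_)
  have := Nat.mul_pos (dpos G) (kk_pos G hk)
  exact_mod_cast this.ne'

theorem step1 : S_step1 := by
  intro G B hk hj
  refine ⟨fun x hx => T_eq hx, fun x hx => ?_, kk_pos G hk, gg_kk G B⟩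
  have hp : (0 : ℤ) < ((G.d * kk G B : ℕ) : ℤ) := by
    exact_mod_cast Nat.mul_pos (dpos G) (kk_pos G hk)
  have hf := nxt_fst G hk x
  refine ⟨⟨rfl, ?_, ?_⟩, ?_⟩
  · have h1 : (((nxt G B x).1 : ℕ) : ℤ) < ((G.d * kk G B : ℕ) : ℤ) := by
      rw [hf]; exact Int.emod_lt_of_pos _ hp
    exact_mod_cast h1
  · rw [hf]
    refine (T_modEq hx).trans ?_
    have h2 : (((B.2 * dd G (B.1 % G.d) : ℕ) : ℤ)) ∣ ((G.d * kk G B : ℕ) : ℤ) := by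
      rw [← gg_kk G B]
      exact_mod_cast Nat.mul_dvd_mul_right (gg_dvd G B) _
    exact ((Int.mod_modEq _ _).of_dvd h2).symm
  · show T G x ≡ (((nxt G B x).1 : ℕ) : ℤ) [ZMOD ((G.d * kk G B : ℕ) : ℤ)]
    rw [hf]
    exact (Int.mod_modEq _ _).symm

end Pool.Agent.Helper63.LG
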