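import Pool.Agent.Helper63.LG.L2a

/-! LG package L2b (helper65's project on MP_39d40e_nt): row sums of Leigh's chain. -/

set_option autoImplicit false

open Finset

namespace Pool.Agent.Helper63.LG

open Pool.Agent.Helper65.LG

open Classical in
/-- the successors of a state -/
theorem succ_filter (G : GMap) (B : ℕ × ℕ) (hk : 1 ≤ B.2) (C : Finset (ℕ × ℕ))
    (hC : ∀ B', Succ G B B' → B' ∈ C) :
    C.filter (fun B' => Succ G B B') = (range (G.d / gg G B)).image (fun t =>
      ((T G (B.1 : ℤ) % ((gg G B * kk G B : ℕ) : ℤ)).toNat + (gg G B * kk G B) * t, kk G B)) := by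
  set N : ℕ := gg G B * kk G B with hN
  have hNp : 0 < N := Nat.mul_pos (gg_pos G B) (kk_pos G hk)
  have hNz : (0 : ℤ) < (N : ℤ) := by exact_mod_cast hNp
  obtain ⟨e, he⟩ := gg_dvd G B
  have hde : G.d / gg G B = e := by
    rw [he]; exact Nat.mul_div_cancel_left _ (gg_pos G B)
  set c0 : ℕ := (T G (B.1 : ℤ) % (N : ℤ)).toNat with hc0
  have hc0' : (c0 : ℤ) = T G (B.1 : ℤ) % (N : ℤ) :=
    Int.toNat_of_nonneg (Int.emod_nonneg _ hNz.ne')
  have hc0lt : c0 < N := by
    have : (c0 : ℤ) < (N : ℤ) := by rw [hc0']; exact Int.emod_lt_of_pos _ hNz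
    exact_mod_cast this
  have hdk : G.d * kk G B = N * e := by rw [he, hN]; ring
  have hNB : N = B.2 * dd G (B.1 % G.d) := gg_kk G B
  rw [hde]
  ext ⟨j', k'⟩
  simp only [mem_filter, mem_image, mem_range, Prod.mk.injEq]
  constructor
  · rintro ⟨-, h1, h2, h3⟩
    simp only at h1 h2 h3
    rw [h1, hdk] at h2
    rw [← hNB] at h3
    have h4 : (j' % N : ℕ) = c0 := by
      have h5 : ((j' % N : ℕ) : ℤ) = (c0 : ℤ) := by
        rw [Int.natCast_mod, hc0']
        exact h3.symm
      exact_mod_cast h5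
    refine ⟨j' / N, Nat.div_lt_of_lt_mul h2, ?_, h1.symm⟩
    rw [← h4]
    exact Nat.mod_add_div j' N
  · rintro ⟨t, ht, h1, h2⟩
    have hs : Succ G B (j', k') := by
      refine ⟨h2.symm, ?_, ?_⟩
      · show j' < G.d * k'
        rw [← h2, hdk, ← h1]
        calc c0 + N * t < N + N * t := by omega
          _ = N * (t + 1) := by ring
          _ ≤ N * e := Nat.mul_le_mul_left _ ht
      · show T G (B.1 : ℤ) ≡ (j' : ℤ) [ZMOD ((B.2 * dd G (B.1 % G.d) : ℕ) : ℤ)]
        rw [← hNB, ← h1]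
        push_cast
        rw [hc0']
        refine Int.modEq_iff_dvd.2 ?_
        have h5 := Int.emod_add_mul_ediv (T G (B.1 : ℤ)) (N : ℤ)
        refine ⟨t - T G (B.1 : ℤ) / (N : ℤ), ?_⟩
        linear_combination h5
    exact ⟨hC _ hs, hs⟩

theorem step2 : S_step2 := by
  classical
  intro G B hk hj C hC
  have h1 := succ_filter G B hk C hC
  unfold P
  rw [← Finset.sum_filter]
  have h2 : ∑ B' ∈ C.filter (fun B' => Succ G B B'), ((gg G B : ℝ) / G.d) =
      (G.d / gg G B : ℕ) * ((gg G B : ℝ) / G.d) := by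
    rw [Finset.sum_const, nsmul_eq_mul]
    congr 2
    have h3 : (C.filter (fun B' => Succ G B B')).card = G.d / gg G B := by
      have h4 := congrArg Finset.card h1
      rw [Finset.card_image_of_injective, card_range] at h4
      · convert h4
      · intro s t hst
        simp only [Prod.mk.injEq] at hst
        have hNp : 0 < gg G B * kk G B := Nat.mul_pos (gg_pos G B) (kk_pos G hk)
        exact Nat.eq_of_mul_eq_mul_left hNp (Nat.add_left_cancel hst.1)
    exact h3
  have h5 : ((G.d / gg G B : ℕ) : ℝ) * ((gg G B : ℝ) / G.d) = 1 := by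
    rw [Nat.cast_div (gg_dvd G B) (by exact_mod_cast (gg_pos G B).ne')]
    have h6 : (G.d : ℝ) ≠ 0 := by exact_mod_cast (dpos G).ne'
    have h7 : (gg G B : ℝ) ≠ 0 := by exact_mod_cast (gg_pos G B).ne'
    field_simp
  rw [← h5, ← h2]

end Pool.Agent.Helper63.LG
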